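import Pool.Agent.helper86.OF.SpecB

open scoped BigOperators

namespace Pool.Agent.OF

noncomputable section

open Classical

/-- The indicator of a colour at a vertex. -/
def BKE_e {V : Type} (K : SimpleGraph V) (c : Sym2 V → ℕ) (v : V) (i : ℕ) : ℤ :=
  if has K c v i then 1 else 0

/-- The weight of a set of vertices. -/
def BKE_W {V : Type} (K : SimpleGraph V) (c : Sym2 V → ℕ) (X : Finset V) (i j : ℕ)
    (U : Finset V) : ℤ :=
  ∑ v ∈ X, if v ∈ U then BKE_e K c v i - BKE_e K c v j else 0

theorem BKE_nX {V : Type} [Fintype V] (K : SimpleGraph V) (c : Sym2 V → ℕ) (X : Finset V) (i : ℕ) :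
    (nX K c X i : ℤ) = ∑ v ∈ X, BKE_e K c v i := by
  unfold nX BKE_e
  rw [Finset.card_filter]
  push_cast
  rfl

theorem BKE_swap (hKSW : KSW_stmt) {V : Type} [Fintype V] (K : SimpleGraph V) (D : ℕ)
    (c : Sym2 V → ℕ) (X : Finset V) (i j : ℕ) (U : Finset V) (hc : PEC K D c) (hi : i < D)
    (hj : j < D) (hij : i ≠ j) (hU : Kcl K c i j U) (hW : BKE_W K c X i j U = 2) :
    PEC K D (ksw c i j U) ∧ (nX K (ksw c i j U) X i : ℤ) = nX K c X i - 2 ∧
      (nX K (ksw c i j U) X j : ℤ) = nX K c X j + 2 ∧
      ∀ k, k ≠ i → k ≠ j → nX K (ksw c i j U) X k = nX K c X k := by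
  obtain ⟨h1, h2, h3, h4⟩ := hKSW V K D c i j U hc hi hj hU
  refine ⟨h1, ?_, ?_, ?_⟩
  · rw [BKE_nX, BKE_nX, ← hW]
    unfold BKE_W
    rw [← Finset.sum_sub_distrib]
    apply Finset.sum_congr rfl
    intro v _
    by_cases hv : v ∈ U
    · rw [if_pos hv]
      have := (h2 v hv).1
      unfold BKE_e
      simp only [this]
      ring
    · rw [if_neg hv]
      have := h3 v hv i
      unfold BKE_e
      simp only [this]
      ring
  · rw [BKE_nX, BKE_nX, ← hW]
    unfold BKE_W
    rw [← Finset.sum_add_distrib]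
    apply Finset.sum_congr rfl
    intro v _
    by_cases hv : v ∈ U
    · rw [if_pos hv]
      have := (h2 v hv).2
      unfold BKE_e
      simp only [this]
      ring
    · rw [if_neg hv]
      have := h3 v hv j
      unfold BKE_e
      simp only [this]
      ring
  · intro k hki hkj
    unfold nX
    congr 1
    apply Finset.filter_congr
    intro v _
    exact h4 v k hki hkj

theorem BKE_find (hKCO : KCO_stmt) {V : Type} [Fintype V] (K : SimpleGraph V) (D : ℕ)
    (c : Sym2 V → ℕ) (X : Finset V) (i j : ℕ) (hc : PEC K D c) (hij : i ≠ j)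
    (hbig : nX K c X j + 6 ≤ nX K c X i) :
    ∃ U : Finset V, Kcl K c i j U ∧ BKE_W K c X i j U = 2 := by
  obtain ⟨S, hS1, hS2, hS3, hS4⟩ := hKCO V K D c i j hc hij
  set F : Finset (Finset V) := Finset.univ.image S with hF
  have huniq : ∀ v, ∀ T ∈ F, (v ∈ T ↔ T = S v) := by
    intro v T hT
    rw [hF, Finset.mem_image] at hT
    obtain ⟨w, _, rfl⟩ := hT
    constructor
    · intro h
      exact (hS2 w v h).symm
    · intro h
      rw [h]
      exact hS1 v
  have hsum : ∑ T ∈ F, BKE_W K c X i j T = (nX K c X i : ℤ) - nX K c X j := by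
    unfold BKE_W
    rw [Finset.sum_comm, BKE_nX, BKE_nX, ← Finset.sum_sub_distrib]
    apply Finset.sum_congr rfl
    intro v _
    rw [Finset.sum_eq_single (S v)]
    · rw [if_pos (hS1 v)]
    · intro T hT hne
      rw [if_neg]
      intro h
      exact hne ((huniq v T hT).1 h)
    · intro h
      exact absurd (Finset.mem_image_of_mem S (Finset.mem_univ v)) h
  have hle : ∀ T ∈ F, BKE_W K c X i j T ≤ 2 := by
    intro T hT
    rw [hF, Finset.mem_image] at hT
    obtain ⟨w, _, rfl⟩ := hT
    have h5 : BKE_W K c X i j (S w) ≤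
        (((S w).filter fun u => ¬ (has K c u i ↔ has K c u j)).card : ℤ) := by
      unfold BKE_W
      rw [← Finset.sum_filter, Finset.card_filter]
      push_cast
      calc ∑ a ∈ X.filter (fun v => v ∈ S w), (BKE_e K c a i - BKE_e K c a j)
          ≤ ∑ a ∈ X.filter (fun v => v ∈ S w),
            (if ¬ (has K c a i ↔ has K c a j) then (1 : ℤ) else 0) := by
            apply Finset.sum_le_sum
            intro a _
            unfold BKE_e
            by_cases h1 : has K c a i <;> by_cases h2 : has K c a j <;> simp [h1, h2]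
        _ ≤ ∑ a ∈ S w, (if ¬ (has K c a i ↔ has K c a j) then (1 : ℤ) else 0) := by
            apply Finset.sum_le_sum_of_subset_of_nonneg
            · intro a ha
              exact (Finset.mem_filter.1 ha).2
            · intro a _ _
              split_ifs <;> simp
    rcases hS4 w with h | h
    · rw [h] at h5
      push_cast at h5
      linarith
    · rw [h] at h5
      push_cast at h5
      linarith
  have hcl : ∀ T ∈ F, Kcl K c i j T := by
    intro T hT
    rw [hF, Finset.mem_image] at hT
    obtain ⟨w, _, rfl⟩ := hT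
    exact hS3 w
  by_cases hex : ∃ T ∈ F, BKE_W K c X i j T = 2
  · obtain ⟨T, hT, hTW⟩ := hex
    exact ⟨T, hcl T hT, hTW⟩
  · push Not at hex
    have hle1 : ∀ T ∈ F, BKE_W K c X i j T ≤ if BKE_W K c X i j T = 1 then (1 : ℤ) else 0 := by
      intro T hT
      have h1 := hle T hT
      have h2 := hex T hT
      split_ifs with h
      · omega
      · omega
    have hcard : (6 : ℤ) ≤ ((F.filter fun T => BKE_W K c X i j T = 1).card : ℤ) := by
      rw [Finset.card_filter]
      push_cast
      have h1 := Finset.sum_le_sum hle1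
      rw [hsum] at h1
      have h2 : (nX K c X j : ℤ) + 6 ≤ nX K c X i := by exact_mod_cast hbig
      linarith
    have hcard' : 1 < (F.filter fun T => BKE_W K c X i j T = 1).card := by
      have : (1 : ℤ) < ((F.filter fun T => BKE_W K c X i j T = 1).card : ℤ) := by linarith
      exact_mod_cast this
    obtain ⟨T, hT, T', hT', hne⟩ := Finset.one_lt_card.1 hcard'
    rw [Finset.mem_filter] at hT hT'
    refine ⟨T ∪ T', ?_, ?_⟩
    · intro v w hvw hcol
      rw [Finset.mem_union, Finset.mem_union, hcl T hT.1 v w hvw hcol, hcl T' hT'.1 v w hvw hcol]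
    · have h6 : BKE_W K c X i j (T ∪ T') = BKE_W K c X i j T + BKE_W K c X i j T' := by
        unfold BKE_W
        rw [← Finset.sum_add_distrib]
        apply Finset.sum_congr rfl
        intro v _
        by_cases h1 : v ∈ T
        · have h2 : v ∉ T' := by
            intro h2
            apply hne
            rw [(huniq v T hT.1).1 h1, (huniq v T' hT'.1).1 h2]
          rw [if_pos h1, if_neg h2, if_pos (Finset.mem_union_left _ h1)]
          ring
        · by_cases h2 : v ∈ T'
          · rw [if_neg h1, if_pos h2, if_pos (Finset.mem_union_right _ h2)]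
            ring
          · rw [if_neg h1, if_neg h2, if_neg]
            · ring
            · rw [Finset.mem_union]
              tauto
      rw [h6, hT.2, hT'.2]
      norm_num

theorem BKE_split (D i j : ℕ) (hi : i < D) (hj : j < D) (hij : i ≠ j) (f : ℕ → ℤ) :
    ∑ k ∈ Finset.range D, f k = f i + (f j + ∑ k ∈ ((Finset.range D).erase i).erase j, f k) := by
  rw [Finset.add_sum_erase _ f, Finset.add_sum_erase _ f]
  · exact Finset.mem_range.2 hi
  · exact Finset.mem_erase.2 ⟨hij.symm, Finset.mem_range.2 hj⟩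

theorem BKE (hKSW : KSW_stmt) (hKCO : KCO_stmt) (hBL0 : BL0_stmt) : BKE_stmt := by
  intro V _ K X D p hind hG
  obtain ⟨c0, hc0, hpar0⟩ := hG
  have hP : ∃ m : ℕ, ∃ c, PEC K D c ∧ (∀ i < D, nX K c X i % 2 = p % 2) ∧
      ∑ i ∈ Finset.range D, (nX K c X i) ^ 2 = m := ⟨_, c0, hc0, hpar0, rfl⟩
  obtain ⟨c, hc, hpar, hsum⟩ := Nat.find_spec hP
  have hmin : ∀ c', PEC K D c' → (∀ i < D, nX K c' X i % 2 = p % 2) →
      ∑ i ∈ Finset.range D, (nX K c X i) ^ 2 ≤ ∑ i ∈ Finset.range D, (nX K c' X i) ^ 2 := by
    intro c' h1 h2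
    rw [hsum]
    exact Nat.find_min' hP ⟨c', h1, h2, rfl⟩
  have hkey : ∀ i < D, ∀ j < D, nX K c X i ≤ nX K c X j + 5 := by
    intro i hi j hj
    by_contra hcon
    push Not at hcon
    have hij : i ≠ j := by
      rintro rfl
      omega
    obtain ⟨U, hU, hW⟩ := BKE_find hKCO K D c X i j hc hij (by omega)
    obtain ⟨h1, h2, h3, h4⟩ := BKE_swap hKSW K D c X i j U hc hi hj hij hU hW
    set c' := ksw c i j U with hc'
    have hpar' : ∀ k < D, nX K c' X k % 2 = p % 2 := by
      intro k hk
      by_cases hki : k = i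
      · subst hki
        have := hpar k hk
        omega
      · by_cases hkj : k = j
        · subst hkj
          have := hpar k hk
          omega
        · rw [h4 k hki hkj]
          exact hpar k hk
    have h5 := hmin c' h1 hpar'
    have h6 : (∑ k ∈ Finset.range D, ((nX K c X k : ℤ)) ^ 2) ≤
        ∑ k ∈ Finset.range D, ((nX K c' X k : ℤ)) ^ 2 := by exact_mod_cast h5
    rw [BKE_split D i j hi hj hij, BKE_split D i j hi hj hij] at h6
    have h7 : ∑ k ∈ ((Finset.range D).erase i).erase j, ((nX K c' X k : ℤ)) ^ 2 =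
        ∑ k ∈ ((Finset.range D).erase i).erase j, ((nX K c X k : ℤ)) ^ 2 := by
      apply Finset.sum_congr rfl
      intro k hk
      rw [Finset.mem_erase, Finset.mem_erase] at hk
      rw [h4 k hk.2.1 hk.1]
    rw [h7, h2, h3] at h6
    have h8 : (nX K c X j : ℤ) + 6 ≤ nX K c X i := by
      have : nX K c X j + 6 ≤ nX K c X i := by omega
      exact_mod_cast this
    nlinarith
  refine ⟨c, hc, hpar, ?_⟩
  intro i hi
  have h0 := hBL0 V K X D c hind hc
  calc D * nX K c X i = ∑ j ∈ Finset.range D, nX K c X i := by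
        rw [Finset.sum_const, Finset.card_range, smul_eq_mul]
    _ ≤ ∑ j ∈ Finset.range D, (nX K c X j + 5) := by
        apply Finset.sum_le_sum
        intro j hj
        exact hkey i hi j (Finset.mem_range.1 hj)
    _ = ep K X Xᶜ + 5 * D := by
        rw [Finset.sum_add_distrib, h0, Finset.sum_const, Finset.card_range, smul_eq_mul]
        ring

end

end Pool.Agent.OF
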